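import Mathlib

/-!
# The unit ball of Lin's renormed `ℓ₁` fails the FPP for uniformly asymptotically regular maps

The simplex `K = {x ≥ 0, ∑ x = 1}` is a Lipschitz retract of the ball, and the affine map
`e n ↦ (1 - 2^{-n-1}) e n + 2^{-n-1} e (n+1)` of `K` is uniformly asymptotically regular and has no
fixed point.
-/

set_option autoImplicit false

namespace Pool.Agent.Results.MP_7b51c2_an.LinBallFails

open Filter Topology

/-- real `ℓ₁`, sequences indexed by `ℕ = {0, 1, 2, …}` -/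
abbrev X : Type := lp (fun _ : ℕ => ℝ) 1

/-- The weights `8^k / (1 + 8^k)`, `k = 1, 2, …`, indexed from `0`. -/
noncomputable def gam (k : ℕ) : ℝ := 8 ^ (k + 1) / (1 + 8 ^ (k + 1))

/-- Lin's norm `sup_k γ_k ∑_{n ≥ k} |x_n|` on `ℓ₁` (entries indexed from `0`). -/
noncomputable def linNorm (x : X) : ℝ := ⨆ k : ℕ, gam k * ∑' n : ℕ, |x (n + k)|

/-- the closed unit ball of Lin's norm -/
def linBall : Set X := {x | linNorm x ≤ 1}

lemma summ (x : X) : Summable (fun n => |x n|) := by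
  have := (lp.hasSum_norm (p := 1) (by norm_num) x).summable
  simpa using this

lemma norm_eq (x : X) : ‖x‖ = ∑' n, |x n| := by
  have := lp.norm_eq_tsum_rpow (p := 1) (by norm_num) x
  simpa using this

/-- element of `ℓ₁` from an absolutely summable sequence -/
noncomputable def mk (f : ℕ → ℝ) (h : Summable (fun n => |f n|)) : X :=
  ⟨f, memℓp_gen (by simpa using h)⟩

@[simp] lemma mk_apply (f : ℕ → ℝ) (h : Summable (fun n => |f n|)) (n : ℕ) : mk f h n = f n := rfl

lemma norm_mk_le {f : ℕ → ℝ} (h : Summable (fun n => |f n|)) {y : X}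
    (hy : ∀ n, |f n| ≤ |y n|) : ‖mk f h‖ ≤ ‖y‖ := by
  rw [norm_eq, norm_eq]
  exact h.tsum_le_tsum hy (summ y)

lemma norm_le_norm {x y : X} (hy : ∀ n, |x n| ≤ |y n|) : ‖x‖ ≤ ‖y‖ := by
  rw [norm_eq, norm_eq]
  exact (summ x).tsum_le_tsum hy (summ y)

lemma gam_le_one (k : ℕ) : gam k ≤ 1 := by
  unfold gam
  rw [div_le_one (by positivity)]
  linarith [show (0 : ℝ) < 1 by norm_num]

lemma gam_nonneg (k : ℕ) : 0 ≤ gam k := by unfold gam; positivity

lemma term_le (x : X) (k : ℕ) : gam k * ∑' n : ℕ, |x (n + k)| ≤ ‖x‖ := by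
  have h1 : ∑' n : ℕ, |x (n + k)| ≤ ‖x‖ := by
    rw [norm_eq, ← (summ x).sum_add_tsum_nat_add k]
    have : 0 ≤ ∑ i ∈ Finset.range k, |x i| := Finset.sum_nonneg (fun _ _ => abs_nonneg _)
    linarith
  have h2 : 0 ≤ ∑' n : ℕ, |x (n + k)| := tsum_nonneg (fun _ => abs_nonneg _)
  calc gam k * ∑' n : ℕ, |x (n + k)| ≤ 1 * ∑' n : ℕ, |x (n + k)| :=
        mul_le_mul_of_nonneg_right (gam_le_one k) h2
    _ = ∑' n : ℕ, |x (n + k)| := one_mul _
    _ ≤ ‖x‖ := h1

lemma linNorm_le (x : X) : linNorm x ≤ ‖x‖ := ciSup_le (term_le x)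

lemma norm_le_linNorm (x : X) : ‖x‖ ≤ 9 / 8 * linNorm x := by
  have h1 : gam 0 * ∑' n : ℕ, |x (n + 0)| ≤ linNorm x :=
    le_ciSup (f := fun k : ℕ => gam k * ∑' n : ℕ, |x (n + k)|)
      ⟨‖x‖, by rintro _ ⟨k, rfl⟩; exact term_le x k⟩ 0
  have h2 : gam 0 = 8 / 9 := by unfold gam; norm_num
  simp only [add_zero] at h1
  rw [h2, ← norm_eq] at h1
  linarith

/-- the simplex -/
def K : Set X := {x | (∀ n, 0 ≤ x n) ∧ ‖x‖ = 1}

lemma K_sub : K ⊆ linBall := fun x hx => (linNorm_le x).trans hx.2.le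

/-- positive part -/
noncomputable def pos (x : X) : X := mk (fun n => max (x n) 0)
  (Summable.of_nonneg_of_le (fun _ => abs_nonneg _) (fun n => by
    rw [abs_of_nonneg (le_max_right _ _)]
    exact max_le (le_abs_self _) (abs_nonneg _)) (summ x))

lemma pos_lip (x y : X) : ‖pos x - pos y‖ ≤ ‖x - y‖ :=
  norm_le_norm (fun n => abs_max_sub_max_le_abs (x n) (y n) 0)

lemma pos_nonneg (x : X) (n : ℕ) : 0 ≤ pos x n := le_max_right _ _

/-- radial retraction onto the unit ball of `ℓ₁` -/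
noncomputable def rad (y : X) : X := (max 1 ‖y‖)⁻¹ • y

lemma rad_lip (y z : X) : ‖rad y - rad z‖ ≤ 2 * ‖y - z‖ := by
  set s := max 1 ‖y‖ with hs
  set t := max 1 ‖z‖ with ht
  have hs1 : 1 ≤ s := le_max_left _ _
  have ht1 : 1 ≤ t := le_max_left _ _
  have hzt : ‖z‖ ≤ t := le_max_right _ _
  have hst : |t - s| ≤ ‖y - z‖ := by
    have h1 : |t - s| ≤ |‖z‖ - ‖y‖| := by
      have := abs_max_sub_max_le_abs ‖z‖ ‖y‖ 1
      rwa [max_comm ‖z‖ 1, max_comm ‖y‖ 1] at this
    exact h1.trans (by rw [← norm_sub_rev z y]; exact abs_norm_sub_norm_le z y)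
  have e1 : rad y - rad z = s⁻¹ • (y - z) + ((t - s) * (s⁻¹ * t⁻¹)) • z := by
    have hs0 : s ≠ 0 := by linarith
    have ht0 : t ≠ 0 := by linarith
    have e2 : (t - s) * (s⁻¹ * t⁻¹) = s⁻¹ - t⁻¹ := by field_simp
    rw [e2, sub_smul, smul_sub]
    show s⁻¹ • y - t⁻¹ • z = _
    abel
  rw [e1]
  have hsinv : s⁻¹ ≤ 1 := inv_le_one_of_one_le₀ hs1
  have hsinv0 : 0 ≤ s⁻¹ := by positivity
  calc ‖s⁻¹ • (y - z) + ((t - s) * (s⁻¹ * t⁻¹)) • z‖
      ≤ s⁻¹ * ‖y - z‖ + (|t - s| * (s⁻¹ * t⁻¹)) * ‖z‖ := by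
        refine (norm_add_le _ _).trans ?_
        rw [norm_smul, norm_smul, Real.norm_of_nonneg hsinv0, norm_mul, Real.norm_eq_abs,
          Real.norm_of_nonneg (by positivity)]
    _ ≤ 1 * ‖y - z‖ + |t - s| * 1 := by
        have h1 : s⁻¹ * t⁻¹ * ‖z‖ ≤ 1 := by
          have h2 : t⁻¹ * ‖z‖ ≤ 1 := by
            rw [inv_mul_le_iff₀ (by linarith)]; linarith
          calc s⁻¹ * t⁻¹ * ‖z‖ = s⁻¹ * (t⁻¹ * ‖z‖) := by ring
            _ ≤ 1 * 1 := by gcongr
            _ = 1 := one_mul 1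
        have h3 : (|t - s| * (s⁻¹ * t⁻¹)) * ‖z‖ = |t - s| * (s⁻¹ * t⁻¹ * ‖z‖) := by ring
        rw [h3]
        gcongr
    _ ≤ 2 * ‖y - z‖ := by linarith

lemma rad_norm_le (y : X) : ‖rad y‖ ≤ 1 := by
  unfold rad
  rw [norm_smul, Real.norm_of_nonneg (by positivity), inv_mul_le_iff₀ (by positivity), mul_one]
  exact le_max_right _ _

lemma rad_of_le {y : X} (h : ‖y‖ ≤ 1) : rad y = y := by
  unfold rad
  rw [max_eq_left h, inv_one, one_smul]

/-- the first unit vector -/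
noncomputable def e0 : X := lp.single (E := fun _ : ℕ => ℝ) 1 0 1

lemma e0_norm : ‖e0‖ = 1 := by
  unfold e0
  rw [lp.norm_single (by norm_num)]
  simp

lemma e0_nonneg (n : ℕ) : 0 ≤ e0 n := by
  unfold e0
  rw [lp.coeFn_single]
  by_cases h : n = 0
  · subst h; simp
  · simp [h]

/-- the retraction onto the simplex -/
noncomputable def ret (x : X) : X := rad (pos x) + (1 - ‖rad (pos x)‖) • e0

lemma ret_lip (x y : X) : ‖ret x - ret y‖ ≤ 4 * ‖x - y‖ := by
  have h1 : ‖rad (pos x) - rad (pos y)‖ ≤ 2 * ‖x - y‖ :=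
    (rad_lip _ _).trans (by linarith [pos_lip x y])
  have e1 : ret x - ret y = (rad (pos x) - rad (pos y))
      + (‖rad (pos y)‖ - ‖rad (pos x)‖) • e0 := by
    unfold ret
    rw [sub_smul, sub_smul, sub_smul]
    abel
  rw [e1]
  refine (norm_add_le _ _).trans ?_
  rw [norm_smul, e0_norm, mul_one, Real.norm_eq_abs]
  have h2 : |‖rad (pos y)‖ - ‖rad (pos x)‖| ≤ ‖rad (pos x) - rad (pos y)‖ := by
    rw [norm_sub_rev]; exact abs_norm_sub_norm_le _ _
  linarith

lemma norm_add_of_nonneg {x y : X} (hx : ∀ n, 0 ≤ x n) (hy : ∀ n, 0 ≤ y n) :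
    ‖x + y‖ = ‖x‖ + ‖y‖ := by
  rw [norm_eq, norm_eq, norm_eq, ← (summ x).tsum_add (summ y)]
  refine tsum_congr (fun n => ?_)
  have : (x + y) n = x n + y n := rfl
  rw [this, abs_of_nonneg (add_nonneg (hx n) (hy n)), abs_of_nonneg (hx n), abs_of_nonneg (hy n)]

lemma ret_mem (x : X) : ret x ∈ K := by
  have hr : ∀ n, 0 ≤ rad (pos x) n := by
    intro n
    have : rad (pos x) n = (max 1 ‖pos x‖)⁻¹ * pos x n := rfl
    rw [this]
    exact mul_nonneg (by positivity) (pos_nonneg x n)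
  have h1 : 0 ≤ 1 - ‖rad (pos x)‖ := by linarith [rad_norm_le (pos x)]
  have he : ∀ n, 0 ≤ ((1 - ‖rad (pos x)‖) • e0) n := fun n => mul_nonneg h1 (e0_nonneg n)
  refine ⟨fun n => add_nonneg (hr n) (he n), ?_⟩
  unfold ret
  rw [norm_add_of_nonneg hr he, norm_smul, e0_norm, Real.norm_of_nonneg h1]
  ring

lemma ret_of_mem {x : X} (hx : x ∈ K) : ret x = x := by
  have h1 : pos x = x := by
    ext n
    exact max_eq_left (hx.1 n)
  unfold ret
  rw [h1, rad_of_le hx.2.le, hx.2]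
  simp

/-- the jump probabilities -/
noncomputable def a (n : ℕ) : ℝ := (1 / 2) ^ (n + 1)

lemma a_pos (n : ℕ) : 0 < a n := by unfold a; positivity

lemma a_le (n : ℕ) : a n ≤ 1 / 2 := by
  unfold a
  rw [pow_succ]
  have : ((1 : ℝ) / 2) ^ n ≤ 1 := pow_le_one₀ (by norm_num) (by norm_num)
  linarith

lemma a_succ (n : ℕ) : a (n + 1) = a n / 2 := by unfold a; rw [pow_succ _ (n + 1)]; ring

/-- entries moved to the right -/
noncomputable def sh (x : ℕ → ℝ) : ℕ → ℝ
  | 0 => 0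
  | n + 1 => a n * x n

lemma summ_a (x : X) : Summable (fun n => a n * |x n|) :=
  Summable.of_nonneg_of_le (fun n => mul_nonneg (a_pos n).le (abs_nonneg _))
    (fun n => by nlinarith [a_le n, a_pos n, abs_nonneg (x n)]) (summ x)

lemma summ_sh (x : X) : Summable (fun n => |sh x n|) := by
  rw [← summable_nat_add_iff 1]
  refine (summ_a x).congr (fun n => ?_)
  show a n * |x n| = |a n * x n|
  rw [abs_mul, abs_of_pos (a_pos n)]

lemma tsum_sh (x : X) : ∑' n, |sh x n| = ∑' n, a n * |x n| := by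
  rw [(summ_sh x).tsum_eq_zero_add]
  have : |sh x 0| = 0 := by simp [sh]
  rw [this, zero_add]
  refine tsum_congr (fun n => ?_)
  show |a n * x n| = a n * |x n|
  rw [abs_mul, abs_of_pos (a_pos n)]

lemma summ_T (x : X) : Summable (fun n => |(1 - a n) * x n + sh x n|) :=
  Summable.of_nonneg_of_le (fun _ => abs_nonneg _) (fun n => by
    calc |(1 - a n) * x n + sh x n| ≤ |(1 - a n) * x n| + |sh x n| := abs_add_le _ _
      _ ≤ |x n| + |sh x n| := by
        rw [abs_mul, abs_of_nonneg (by linarith [a_le n] : 0 ≤ 1 - a n)]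
        nlinarith [a_pos n, abs_nonneg (x n)]) ((summ x).add (summ_sh x))

/-- the affine map on the simplex -/
noncomputable def T0 (x : X) : X := mk (fun n => (1 - a n) * x n + sh x n) (summ_T x)

lemma T0_apply (x : X) (n : ℕ) : T0 x n = (1 - a n) * x n + sh x n := rfl

lemma T0_sub (x y : X) : T0 x - T0 y = T0 (x - y) := by
  ext n
  have h1 : (T0 x - T0 y) n = T0 x n - T0 y n := rfl
  rw [h1, T0_apply, T0_apply, T0_apply]
  have h2 : (x - y) n = x n - y n := rfl
  rw [h2]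
  cases n with
  | zero => simp only [sh]; ring
  | succ n =>
    have h3 : (x - y) n = x n - y n := rfl
    simp only [sh, h3]; ring

lemma T0_norm_le (x : X) : ‖T0 x‖ ≤ ‖x‖ := by
  rw [norm_eq, norm_eq]
  have h1 : ∑' n, |T0 x n| ≤ ∑' n, ((1 - a n) * |x n| + |sh x n|) := by
    refine (summ_T x).tsum_le_tsum (fun n => ?_) ?_
    · refine (abs_add_le _ _).trans ?_
      rw [abs_mul, abs_of_nonneg (by linarith [a_le n] : 0 ≤ 1 - a n)]
    · refine Summable.add ?_ (summ_sh x)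
      exact ((summ x).sub (summ_a x)).congr (fun n => by ring)
  refine h1.trans (le_of_eq ?_)
  have h2 : Summable (fun n => (1 - a n) * |x n|) :=
    ((summ x).sub (summ_a x)).congr (fun n => by ring)
  rw [h2.tsum_add (summ_sh x), tsum_sh, ← h2.tsum_add (summ_a x)]
  exact tsum_congr (fun n => by ring)

/-- the moved mass -/
noncomputable def mass (x : X) : ℝ := ∑' n, a n * |x n|

lemma T0_mem {x : X} (hx : x ∈ K) : T0 x ∈ K := by
  have h0 : ∀ n, 0 ≤ sh x n := by
    intro n; cases n with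
    | zero => simp [sh]
    | succ n => exact mul_nonneg (a_pos n).le (hx.1 n)
  have h1 : ∀ n, 0 ≤ (1 - a n) * x n := fun n => mul_nonneg (by linarith [a_le n]) (hx.1 n)
  refine ⟨fun n => add_nonneg (h1 n) (h0 n), ?_⟩
  rw [← hx.2, norm_eq, norm_eq]
  have h2 : Summable (fun n => (1 - a n) * |x n|) :=
    ((summ x).sub (summ_a x)).congr (fun n => by ring)
  have h3 : ∀ n, |T0 x n| = (1 - a n) * |x n| + |sh x n| := by
    intro n
    rw [T0_apply, abs_of_nonneg (add_nonneg (h1 n) (h0 n)), abs_of_nonneg (hx.1 n),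
      abs_of_nonneg (h0 n)]
  rw [tsum_congr h3, h2.tsum_add (summ_sh x), tsum_sh, ← h2.tsum_add (summ_a x)]
  exact tsum_congr (fun n => by ring)

lemma summ_a2 (x : X) : Summable (fun n => a n ^ 2 * |x n|) :=
  Summable.of_nonneg_of_le (fun n => by positivity)
    (fun n => by
      have h1 := mul_nonneg (a_pos n).le (abs_nonneg (x n))
      nlinarith [a_le n, a_pos n, abs_nonneg (x n)]) (summ_a x)

lemma mass_T0 {x : X} (hx : x ∈ K) : mass (T0 x) ≤ mass x - mass x ^ 2 / 2 := by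
  have h0 : ∀ n, 0 ≤ sh x n := by
    intro n; cases n with
    | zero => simp [sh]
    | succ n => exact mul_nonneg (a_pos n).le (hx.1 n)
  have h1 : ∀ n, 0 ≤ (1 - a n) * x n := fun n => mul_nonneg (by linarith [a_le n]) (hx.1 n)
  have h3 : ∀ n, a n * |T0 x n| = (a n * |x n| - a n ^ 2 * |x n|) + a n * |sh x n| := by
    intro n
    rw [T0_apply, abs_of_nonneg (add_nonneg (h1 n) (h0 n)), abs_of_nonneg (hx.1 n),
      abs_of_nonneg (h0 n)]
    ring
  have hs : Summable (fun n => a n * |sh x n|) :=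
    Summable.of_nonneg_of_le (fun n => mul_nonneg (a_pos n).le (abs_nonneg _))
      (fun n => by nlinarith [a_le n, a_pos n, abs_nonneg (sh x n)]) (summ_sh x)
  have h4 : ∑' n, a n * |sh x n| = (∑' n, a n ^ 2 * |x n|) / 2 := by
    rw [hs.tsum_eq_zero_add]
    have : a 0 * |sh x 0| = 0 := by simp [sh]
    rw [this, zero_add, ← tsum_div_const]
    refine tsum_congr (fun n => ?_)
    show a (n + 1) * |a n * x n| = _
    rw [a_succ, abs_mul, abs_of_pos (a_pos n)]
    ring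
  have h5 : mass (T0 x) = mass x - (∑' n, a n ^ 2 * |x n|) / 2 := by
    unfold mass
    rw [tsum_congr h3, ((summ_a x).sub (summ_a2 x)).tsum_add hs, (summ_a x).tsum_sub (summ_a2 x),
      h4]
    ring
  have h6 : mass x ^ 2 ≤ ∑' n, a n ^ 2 * |x n| := by
    have h7 : 0 ≤ ∑' n, (a n - mass x) ^ 2 * |x n| :=
      tsum_nonneg (fun n => by positivity)
    have h8 : ∑' n, (a n - mass x) ^ 2 * |x n|
        = (∑' n, a n ^ 2 * |x n|) - 2 * mass x * mass x + mass x ^ 2 * ‖x‖ := by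
      have e1 : ∀ n, (a n - mass x) ^ 2 * |x n|
          = (a n ^ 2 * |x n| - (2 * mass x) * (a n * |x n|)) + mass x ^ 2 * |x n| := by
        intro n; ring
      rw [tsum_congr e1, ((summ_a2 x).sub ((summ_a x).mul_left _)).tsum_add
        ((summ x).mul_left _), (summ_a2 x).tsum_sub ((summ_a x).mul_left _), tsum_mul_left,
        tsum_mul_left, norm_eq]
      rfl
    rw [h8, hx.2] at h7
    nlinarith
  rw [h5]
  linarith

lemma mass_nonneg (x : X) : 0 ≤ mass x := tsum_nonneg (fun n => mul_nonneg (a_pos n).le (abs_nonneg _))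

lemma mass_le {x : X} (hx : x ∈ K) : mass x ≤ 1 := by
  have : mass x ≤ ‖x‖ := by
    rw [norm_eq]
    exact (summ_a x).tsum_le_tsum (fun n => by nlinarith [a_le n, a_pos n, abs_nonneg (x n)])
      (summ x)
  rwa [hx.2] at this

lemma norm_sub_T0 (x : X) : ‖x - T0 x‖ ≤ 2 * mass x := by
  rw [norm_eq]
  have h1 : ∀ n, |(x - T0 x) n| ≤ a n * |x n| + |sh x n| := by
    intro n
    have h2 : (x - T0 x) n = a n * x n - sh x n := by
      have : (x - T0 x) n = x n - T0 x n := rfl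
      rw [this, T0_apply]; ring
    rw [h2]
    refine (abs_sub _ _).trans ?_
    rw [abs_mul, abs_of_pos (a_pos n)]
  have h3 : ∑' n, |(x - T0 x) n| ≤ ∑' n, (a n * |x n| + |sh x n|) :=
    (summ (x - T0 x)).tsum_le_tsum h1 ((summ_a x).add (summ_sh x))
  rw [(summ_a x).tsum_add (summ_sh x), tsum_sh] at h3
  unfold mass
  linarith

lemma T0_no_fix {x : X} (h : T0 x = x) : x = 0 := by
  have h1 : ∀ n, x n = 0 := by
    intro n
    induction n with
    | zero =>
      have h2 : T0 x 0 = x 0 := by rw [h]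
      rw [T0_apply] at h2
      simp only [sh] at h2
      have := a_pos 0
      nlinarith
    | succ n ih =>
      have h2 : T0 x (n + 1) = x (n + 1) := by rw [h]
      rw [T0_apply] at h2
      simp only [sh, ih] at h2
      have := a_pos (n + 1)
      nlinarith
  ext n
  simpa using h1 n

/-- the map on the ball -/
noncomputable def T (x : X) : X := T0 (ret x)

lemma T_mem (x : X) : T x ∈ K := T0_mem (ret_mem x)

lemma T_iter_mem (x : X) (n : ℕ) : T^[n + 1] x ∈ K := by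
  rw [Function.iterate_succ_apply']
  exact T_mem _

lemma T_of_mem {x : X} (hx : x ∈ K) : T x = T0 x := by
  unfold T
  rw [ret_of_mem hx]

lemma mass_iter (x : X) (n : ℕ) : mass (T^[n + 1] x) ≤ 2 / ((n : ℝ) + 2) := by
  induction n with
  | zero =>
    refine (mass_le (T_iter_mem x 0)).trans ?_
    norm_num
  | succ n ih =>
    have h1 : T^[n + 1 + 1] x = T0 (T^[n + 1] x) := by
      rw [Function.iterate_succ_apply' T (n + 1) x, T_of_mem (T_iter_mem x n)]
    rw [h1]
    refine (mass_T0 (T_iter_mem x n)).trans ?_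
    set m := mass (T^[n + 1] x) with hm
    have hm0 : 0 ≤ m := mass_nonneg _
    have hn : (0 : ℝ) ≤ n := Nat.cast_nonneg n
    have hn2 : (0 : ℝ) < (n : ℝ) + 2 := by linarith
    have hn3 : (0 : ℝ) < (n : ℝ) + 3 := by linarith
    have h2 : 2 / ((n : ℝ) + 2) ≤ 1 := by rw [div_le_one hn2]; linarith
    have h3 : m - m ^ 2 / 2 ≤ 2 / ((n : ℝ) + 2) - (2 / ((n : ℝ) + 2)) ^ 2 / 2 := by
      nlinarith
    refine h3.trans ?_
    have h4 : 2 / ((n : ℝ) + 2) - (2 / ((n : ℝ) + 2)) ^ 2 / 2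
        = 2 * ((n : ℝ) + 1) / ((n : ℝ) + 2) ^ 2 := by
      field_simp
      ring
    rw [h4]
    push_cast
    rw [div_le_div_iff₀ (by positivity) (by linarith)]
    nlinarith

/-- **Positive answer to Q1.**  The closed unit ball of Lin's norm on `ℓ₁` admits a Lipschitz,
uniformly asymptotically regular self-map without fixed points. -/
theorem result :
    ∃ T : X → X, (∀ x ∈ linBall, T x ∈ linBall) ∧
      (∃ L : ℝ, ∀ x ∈ linBall, ∀ y ∈ linBall, linNorm (T x - T y) ≤ L * linNorm (x - y)) ∧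
      (∀ ε : ℝ, 0 < ε → ∃ N : ℕ, ∀ n : ℕ, N ≤ n → ∀ x ∈ linBall,
        linNorm (T^[n] x - T^[n + 1] x) ≤ ε) ∧
      ∀ x ∈ linBall, T x ≠ x := by
  refine ⟨T, fun x _ => K_sub (T_mem x), ⟨9 / 2, fun x _ y _ => ?_⟩, ?_, ?_⟩
  · have h1 : ‖T x - T y‖ ≤ 4 * ‖x - y‖ := by
      unfold T
      rw [T0_sub]
      exact (T0_norm_le _).trans (ret_lip x y)
    have h2 := norm_le_linNorm (x - y)
    have h3 := linNorm_le (T x - T y)
    linarith
  · intro ε hε
    obtain ⟨N, hN⟩ := exists_nat_gt (4 / ε)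
    refine ⟨N + 1, fun n hn x _ => ?_⟩
    obtain ⟨k, rfl⟩ := Nat.exists_eq_add_of_le hn
    have e1 : N + 1 + k = (N + k) + 1 := by ring
    rw [e1]
    have h1 : T^[N + k + 1 + 1] x = T0 (T^[N + k + 1] x) := by
      rw [Function.iterate_succ_apply' T (N + k + 1) x, T_of_mem (T_iter_mem x (N + k))]
    rw [h1]
    refine (linNorm_le _).trans ((norm_sub_T0 _).trans ?_)
    have h2 := mass_iter x (N + k)
    have h3 : 2 / (((N + k : ℕ) : ℝ) + 2) ≤ ε / 2 := by
      rw [div_le_iff₀ (by positivity)]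
      have h4 : 4 < N * ε := by rwa [div_lt_iff₀ hε] at hN
      have h5 : (0 : ℝ) ≤ k := Nat.cast_nonneg k
      push_cast
      nlinarith
    linarith
  · intro x _ h
    have hx : x ∈ K := by rw [← h]; exact T_mem x
    rw [T_of_mem hx] at h
    have h0 := T0_no_fix h
    have h1 := hx.2
    rw [h0, norm_zero] at h1
    exact zero_ne_one h1

end Pool.Agent.Results.MP_7b51c2_an.LinBallFails
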